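import Pool.Agent.TH55.PowD

/-! The powers of the Beurling transform on functions of one angular frequency. -/

set_option autoImplicit false
open MeasureTheory Filter Topology
open scoped FourierTransform SchwartzMap ENNReal ComplexConjugate

namespace Q78.AF

open Pool.Agent.TH55.PowA

/-- angular frequency `m` -/
def An (m : ℤ) (f : ℂ → ℂ) : Prop := ∀ a z : ℂ, ‖a‖ = 1 → f (a * z) = a ^ m * f z

lemma int_rot (a : ℂ) (ha : ‖a‖ = 1) (g : ℂ → ℂ) : ∫ x : ℂ, g (a * x) = ∫ x : ℂ, g x := by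
  have hc : a ∈ Submonoid.unitSphere ℂ := mem_sphere_zero_iff_norm.2 ha
  have h := (rotation ⟨a, hc⟩).measurePreserving
  exact h.integral_comp (rotation ⟨a, hc⟩).toHomeomorph.measurableEmbedding g

lemma int_conj (g : ℂ → ℂ) : ∫ x : ℂ, g (conj x) = ∫ x : ℂ, g x := by
  have h := Complex.conjLIE.measurePreserving
  exact h.integral_comp Complex.conjLIE.toHomeomorph.measurableEmbedding g

lemma sm_rot (a : ℂ) (ha : ‖a‖ = 1) (x ξ : ℂ) : sm (a * x) (a * ξ) = sm x ξ := by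
  have h : a.re ^ 2 + a.im ^ 2 = 1 := by
    have h1 := Complex.sq_norm a
    rw [ha, Complex.normSq_apply] at h1
    nlinarith
  simp only [sm, Complex.mul_re, Complex.mul_im]
  linear_combination (x.re * ξ.re + x.im * ξ.im) * h

lemma sm_conj (x ξ : ℂ) : sm x (conj ξ) = sm (conj x) ξ := by
  simp [sm]

/-- the Fourier transform keeps the angular frequency -/
lemma Ft_rot {m : ℤ} {f : 𝓢(ℂ, ℂ)} (hf : An m f) (a : ℂ) (ha : ‖a‖ = 1) (ξ : ℂ) :
    Ft f (a * ξ) = a ^ m * Ft f ξ := by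
  unfold Ft
  rw [← int_rot a ha (fun x => Complex.exp (-(2 * (Real.pi : ℂ) * Complex.I *
    ((sm x (a * ξ) : ℝ) : ℂ))) * f x), ← integral_const_mul]
  refine integral_congr_ae (Eventually.of_forall fun x => ?_)
  simp only [sm_rot a ha, hf a x ha]
  ring

lemma bs_conj (ξ : ℂ) : bs (conj ξ) = (bs ξ)⁻¹ := by
  unfold bs
  rw [Complex.conj_conj, inv_div]

lemma bs_ne (ξ : ℂ) (h : ξ ≠ 0) : bs ξ ≠ 0 := by
  have h1 := bs_norm ξ h
  intro h2
  rw [h2, norm_zero] at h1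
  exact zero_ne_one h1

lemma bs_mul (ξ : ℂ) (h : ξ ≠ 0) : bs ξ * ξ = conj ξ := by
  unfold bs
  rw [div_mul_cancel₀ _ h]

/-- **the reflection identity**: on the angular frequency `m` the power `T ^ n` acts as `T ^ (m - n)`
followed by the reflection `z ↦ conj z` -/
theorem T_refl (n m : ℤ) {f : 𝓢(ℂ, ℂ)} (hf : An m f) (z : ℂ) :
    T (fun ξ => bs ξ ^ n) f z = T (fun ξ => bs ξ ^ (m - n)) f (conj z) := by
  unfold T
  rw [← int_conj (fun ξ : ℂ => Complex.exp (2 * (Real.pi : ℂ) * Complex.I *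
    ((sm z ξ : ℝ) : ℂ)) * (bs ξ ^ n * Ft f ξ))]
  refine integral_congr_ae ?_
  filter_upwards [ae_ne] with ξ hξ
  rw [sm_conj, bs_conj, ← bs_mul ξ hξ, Ft_rot hf (bs ξ) (bs_norm ξ hξ) ξ, ← mul_assoc, inv_zpow,
    zpow_sub₀ (bs_ne ξ hξ), ← mul_assoc]
  rw [div_eq_inv_mul]
  ring

/-- composition with the reflection -/
noncomputable def cj (f : 𝓢(ℂ, ℂ)) : 𝓢(ℂ, ℂ) :=
  SchwartzMap.compCLMOfContinuousLinearEquiv ℂ Complex.conjCLE f

lemma cj_apply (f : 𝓢(ℂ, ℂ)) (x : ℂ) : cj f x = f (conj x) := rfl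

lemma Ft_cj (f : 𝓢(ℂ, ℂ)) (ξ : ℂ) : Ft (cj f) ξ = Ft f (conj ξ) := by
  unfold Ft
  rw [← int_conj (fun x => Complex.exp (-(2 * (Real.pi : ℂ) * Complex.I *
    ((sm x (conj ξ) : ℝ) : ℂ))) * f x)]
  refine integral_congr_ae (Eventually.of_forall fun x => ?_)
  simp only [cj_apply, sm_conj, Complex.conj_conj]

/-- negative powers -/
theorem T_neg (j : ℤ) (f : 𝓢(ℂ, ℂ)) (z : ℂ) :
    T (fun ξ => bs ξ ^ (-j)) f z = T (fun ξ => bs ξ ^ j) (cj f) (conj z) := by
  unfold T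
  rw [← int_conj (fun ξ : ℂ => Complex.exp (2 * (Real.pi : ℂ) * Complex.I *
    ((sm z ξ : ℝ) : ℂ)) * (bs ξ ^ (-j) * Ft f ξ))]
  refine integral_congr_ae (Eventually.of_forall fun ξ => ?_)
  simp only [sm_conj, bs_conj, Ft_cj]
  rw [zpow_neg, inv_zpow, inv_inv]

lemma An_cj {m : ℤ} {f : 𝓢(ℂ, ℂ)} (hf : An m f) : An (-m) (cj f) := by
  intro a z ha
  have h1 : a⁻¹ = conj a := by
    rw [Complex.inv_def, Complex.normSq_eq_norm_sq, ha]
    simp
  rw [cj_apply, cj_apply, map_mul, hf (conj a) (conj z) (by rw [RCLike.norm_conj, ha]), ← h1,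
    inv_zpow, zpow_neg]

/-- Fourier inversion -/
lemma T_one (f : 𝓢(ℂ, ℂ)) (z : ℂ) : T (fun _ => 1) f z = f z := by
  have h2 := Continuous.fourierInv_fourier_eq f.continuous f.integrable
    (by
      have : Integrable (𝓕 (f : ℂ → ℂ)) := by
        rw [← SchwartzMap.fourier_coe]
        exact (𝓕 f : 𝓢(ℂ, ℂ)).integrable
      exact this)
  have h3 := congrFun h2 z
  rw [Real.fourierInv_eq'] at h3
  rw [← h3]
  unfold T
  refine integral_congr_ae (Eventually.of_forall fun ξ => ?_)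
  simp only [one_mul, smul_eq_mul]
  rw [Ft_eq, SchwartzMap.fourier_coe]
  have : (inner ℝ ξ z : ℝ) = sm z ξ := by
    rw [Complex.inner]
    simp [sm]
  rw [this]
  congr 2
  push_cast
  ring

end Q78.AF
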