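import Pool.Agent.Q78.AF.A
import Pool.Agent.Q299.FC.F

/-! Linearity and finite averages over rotations. -/

set_option autoImplicit false
open MeasureTheory Filter Topology Real
open scoped FourierTransform SchwartzMap ENNReal ComplexConjugate

namespace Q78.AF

open Pool.Agent.TH55.PowA

lemma adm_pow (n : ℤ) : Adm (fun ξ => bs ξ ^ n) := by
  refine ⟨bs_meas.pow_const n, fun ξ => ?_⟩
  rcases eq_or_ne ξ 0 with h | h
  · rcases eq_or_ne n 0 with h1 | h1
    · simp [h1]
    · have : bs ξ = 0 := by simp [bs, h]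
      rw [this, zero_zpow n h1]
      simp
  · rw [norm_zpow, bs_norm ξ h, one_zpow]

lemma Ft_lin {ι : Type*} (s : Finset ι) (a : ι → ℂ) (F : ι → 𝓢(ℂ, ℂ)) (ξ : ℂ) :
    Ft (∑ i ∈ s, a i • F i) ξ = ∑ i ∈ s, a i * Ft (F i) ξ := by
  classical
  induction s using Finset.induction_on with
  | empty =>
    rw [Finset.sum_empty, Finset.sum_empty]
    unfold Ft
    simp
  | insert i s hi ih =>
    rw [Finset.sum_insert hi, Finset.sum_insert hi, ← ih]
    simp only [Ft_eq]
    have h1 : (𝓕 (a i • F i + ∑ x ∈ s, a x • F x) : 𝓢(ℂ, ℂ))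
        = a i • (𝓕 (F i) : 𝓢(ℂ, ℂ)) + (𝓕 (∑ x ∈ s, a x • F x) : 𝓢(ℂ, ℂ)) := by
      rw [FourierTransform.fourier_add, FourierTransform.fourier_smul]
    rw [h1]
    rfl

lemma T_lin {ι : Type*} (s : Finset ι) (a : ι → ℂ) (F : ι → 𝓢(ℂ, ℂ)) {b : ℂ → ℂ} (hb : Adm b)
    (z : ℂ) : T b (∑ i ∈ s, a i • F i) z = ∑ i ∈ s, a i * T b (F i) z := by
  unfold T
  have e : ∀ ξ : ℂ, Complex.exp (2 * (Real.pi : ℂ) * Complex.I * ((sm z ξ : ℝ) : ℂ)) *
      (b ξ * Ft (∑ i ∈ s, a i • F i) ξ) = ∑ i ∈ s, a i *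
        (Complex.exp (2 * (Real.pi : ℂ) * Complex.I * ((sm z ξ : ℝ) : ℂ)) *
          (b ξ * Ft (F i) ξ)) := by
    intro ξ
    rw [Ft_lin, Finset.mul_sum, Finset.mul_sum]
    refine Finset.sum_congr rfl fun i _ => ?_
    ring
  simp only [e]
  rw [integral_finsetSum]
  · refine Finset.sum_congr rfl fun i _ => ?_
    rw [integral_const_mul]
  · intro i _
    exact (T_integrand_int hb (F i) z).const_mul _

lemma sum_apply {ι : Type*} (s : Finset ι) (a : ι → ℂ) (F : ι → 𝓢(ℂ, ℂ)) (z : ℂ) :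
    (∑ i ∈ s, a i • F i : 𝓢(ℂ, ℂ)) z = ∑ i ∈ s, a i * F i z := by
  classical
  induction s using Finset.induction_on with
  | empty => simp
  | insert i s hi ih =>
    rw [Finset.sum_insert hi, Finset.sum_insert hi, ← ih]
    rfl

lemma norm_rot (a : ℂ) (ha : ‖a‖ = 1) (P : ℝ≥0∞) (g : ℂ → ℂ) :
    eLpNorm (fun z => g (a * z)) P volume = eLpNorm g P volume := by
  have hc : a ∈ Submonoid.unitSphere ℂ := mem_sphere_zero_iff_norm.2 ha
  have h := (rotation ⟨a, hc⟩).measurePreserving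
  have h2 := (rotation ⟨a, hc⟩).toHomeomorph.measurableEmbedding.eLpNorm_map_measure
    (p := P) (μ := volume) (g := g)
  have h3 : Measure.map (rotation ⟨a, hc⟩).toHomeomorph (volume : Measure ℂ) = volume := h.map_eq
  rw [h3] at h2
  exact h2.symm

lemma norm_conj (P : ℝ≥0∞) (g : ℂ → ℂ) :
    eLpNorm (fun z => g (conj z)) P volume = eLpNorm g P volume := by
  have h := Complex.conjLIE.measurePreserving
  have h2 := Complex.conjLIE.toHomeomorph.measurableEmbedding.eLpNorm_map_measure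
    (p := P) (μ := volume) (g := g)
  have h3 : Measure.map Complex.conjLIE.toHomeomorph (volume : Measure ℂ) = volume := h.map_eq
  rw [h3] at h2
  exact h2.symm

/-- average over the roots of unity -/
lemma root_avg {N : ℕ} (hN : 0 < N) {ω : ℂ} (hω : IsPrimitiveRoot ω N) (r : ℤ) (hr : |r| < N) :
    ∑ l ∈ Finset.range N, (ω ^ l) ^ r = if r = 0 then (N : ℂ) else 0 := by
  have e : ∀ l : ℕ, (ω ^ l) ^ r = (ω ^ r) ^ l := by
    intro l
    rw [← zpow_natCast, ← zpow_natCast, ← zpow_mul, ← zpow_mul, mul_comm]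
  simp only [e]
  split_ifs with h
  · simp [h]
  · have h1 : ω ^ r ≠ 1 := by
      intro h2
      have h3 := (hω.zpow_eq_one_iff_dvd r).1 h2
      have h4 := Int.le_of_dvd (abs_pos.2 h) ((dvd_abs _ _).2 h3)
      omega
    have h2 : (ω ^ r) ^ N = 1 := by
      rw [← zpow_natCast, ← zpow_mul, mul_comm, zpow_mul, zpow_natCast, hω.pow_eq_one, one_zpow]
    rw [geom_sum_eq h1, h2, sub_self, zero_div]

/-- the circle average is invariant under rotations -/
lemma circ_rot (a : ℂ) (ha : ‖a‖ = 1) (g : ℂ → ℝ) :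
    circleAverage (fun w => g (a * w)) 0 1 = circleAverage g 0 1 := by
  have h := circleAverage_eq_integral_add (f := g) (c := 0) (R := 1) (Complex.arg a)
  rw [h, circleAverage_def]
  have e : a = Complex.exp (Complex.arg a * Complex.I) := by
    have := Complex.norm_mul_exp_arg_mul_I a
    rw [ha] at this
    simpa using this.symm
  have e2 : ∀ θ : ℝ, a * circleMap 0 1 θ = circleMap 0 1 (θ + Complex.arg a) := by
    intro θ
    rw [circleMap, circleMap]
    push_cast
    rw [add_mul, Complex.exp_add, ← e]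
    ring
  simp only [e2]

end Q78.AF
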