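import Pool.Agent.Q78.AF.B

/-! Bands of angular frequencies. -/

set_option autoImplicit false
open MeasureTheory Filter Topology Real
open scoped FourierTransform SchwartzMap ENNReal ComplexConjugate

namespace Q78.AF

open Pool.Agent.TH55.PowA

variable (c : ℤ) (k : ℕ) (F : ℤ → 𝓢(ℂ, ℂ))

/-- the sum with rotated components -/
noncomputable def Rf (ω : ℂ) : 𝓢(ℂ, ℂ) := ∑ m ∈ Finset.Icc (c - k) (c + k), ω ^ m • F m

/-- the sum -/
noncomputable def fB : 𝓢(ℂ, ℂ) := ∑ m ∈ Finset.Icc (c - k) (c + k), F m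

lemma fB_apply (z : ℂ) : fB c k F z = ∑ m ∈ Finset.Icc (c - k) (c + k), F m z := by
  have := sum_apply (Finset.Icc (c - k) (c + k)) (fun _ => 1) F z
  simp only [one_smul, one_mul] at this
  exact this

/-- mean modulus of `w + ... + w ^ k` on the unit circle -/
noncomputable def Lk (k : ℕ) : ℝ := circleAverage (fun w => ‖∑ j ∈ Finset.Icc 1 k, w ^ j‖) 0 1

lemma Lk_nonneg (k : ℕ) : 0 ≤ Lk k := circleAverage_nonneg_of_nonneg fun w _ => norm_nonneg _

variable {c k F}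

lemma Rf_apply (hF : ∀ m, An m (F m)) (ω : ℂ) (hω : ‖ω‖ = 1) (z : ℂ) :
    Rf c k F ω z = fB c k F (ω * z) := by
  unfold Rf
  rw [sum_apply, fB_apply]
  exact Finset.sum_congr rfl fun m _ => (hF m ω z hω).symm

lemma norm_Rf (hF : ∀ m, An m (F m)) (ω : ℂ) (hω : ‖ω‖ = 1) (P : ℝ≥0∞) :
    eLpNorm (Rf c k F ω) P volume = eLpNorm (fB c k F) P volume := by
  rw [← norm_rot ω hω P (fB c k F)]
  congr 1
  funext z
  exact Rf_apply hF ω hω z

/-- a component as a finite average of rotations -/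
lemma comp_avg {b : ℂ → ℂ} (hb : Adm b) {ω : ℂ} (hω : IsPrimitiveRoot ω (2 * k + 1)) (m₀ : ℤ)
    (hm : m₀ ∈ Finset.Icc (c - k) (c + k)) (z : ℂ) :
    ((2 * k + 1 : ℕ) : ℂ) * T b (F m₀) z
      = ∑ l ∈ Finset.range (2 * k + 1), (ω ^ l) ^ (-m₀) * T b (Rf c k F (ω ^ l)) z := by
  have hω0 : ω ≠ 0 := hω.ne_zero (by omega)
  have e : ∀ l ∈ Finset.range (2 * k + 1), (ω ^ l) ^ (-m₀) * T b (Rf c k F (ω ^ l)) z
      = ∑ m ∈ Finset.Icc (c - k) (c + k), (ω ^ l) ^ (m - m₀) * T b (F m) z := by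
    intro l _
    unfold Rf
    rw [T_lin _ _ _ hb, Finset.mul_sum]
    refine Finset.sum_congr rfl fun m _ => ?_
    rw [sub_eq_add_neg, zpow_add₀ (pow_ne_zero l hω0)]
    ring
  rw [Finset.sum_congr rfl e, Finset.sum_comm]
  rw [Finset.sum_eq_single m₀]
  · rw [← Finset.sum_mul, root_avg (by omega) hω (m₀ - m₀) (by rw [sub_self, abs_zero]; positivity),
      if_pos (sub_self _)]
  · intro m hm' hne
    rw [Finset.mem_Icc] at hm hm'
    rw [← Finset.sum_mul, root_avg (by omega) hω (m - m₀) (by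
      rw [abs_lt]; push_cast; omega), if_neg (sub_ne_zero.2 hne), zero_mul]
  · intro h
    exact absurd hm h

lemma om_norm' {N : ℕ} (hN : N ≠ 0) {ω : ℂ} (hω : IsPrimitiveRoot ω N) (l : ℕ) : ‖ω ^ l‖ = 1 := by
  rw [norm_pow, hω.norm'_eq_one hN, one_pow]

/-- one component is bounded by the sum -/
lemma comp_bound (hF : ∀ m, An m (F m)) {P : ℝ≥0∞} (hP : 1 ≤ P) (m₀ : ℤ)
    (hm : m₀ ∈ Finset.Icc (c - k) (c + k)) :
    eLpNorm (F m₀) P volume ≤ eLpNorm (fB c k F) P volume := by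
  have hN0 : (2 * k + 1) ≠ 0 := by omega
  have hω := Complex.isPrimitiveRoot_exp (2 * k + 1) hN0
  set ω := Complex.exp (2 * π * Complex.I / (2 * k + 1 : ℕ)) with hωd
  have hadm : Adm (fun _ : ℂ => (1 : ℂ)) := ⟨measurable_const, fun _ => by simp⟩
  have e : (fun z => ((2 * k + 1 : ℕ) : ℂ) • F m₀ z)
      = fun z => ∑ l ∈ Finset.range (2 * k + 1), ((ω ^ l) ^ (-m₀)) • Rf c k F (ω ^ l) z := by
    funext z
    have h := comp_avg (F := F) (c := c) hadm hω m₀ hm z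
    simp only [T_one] at h
    simpa [smul_eq_mul] using h
  have h1 : eLpNorm (fun z => ((2 * k + 1 : ℕ) : ℂ) • F m₀ z) P volume
      ≤ ((2 * k + 1 : ℕ) : ℝ≥0∞) * eLpNorm (fB c k F) P volume := by
    rw [e]
    have e2 : (fun z => ∑ l ∈ Finset.range (2 * k + 1), ((ω ^ l) ^ (-m₀)) • Rf c k F (ω ^ l) z)
        = ∑ l ∈ Finset.range (2 * k + 1), fun z => ((ω ^ l) ^ (-m₀)) • Rf c k F (ω ^ l) z := by
      funext z
      rw [Finset.sum_apply]
    rw [e2]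
    refine (eLpNorm_sum_le (fun l _ => ?_) hP).trans ?_
    · refine Continuous.aestronglyMeasurable ?_
      exact Continuous.smul (continuous_const (y := ((ω ^ l) ^ (-m₀) : ℂ)))
        (Rf c k F (ω ^ l)).continuous
    · have e3 : ∀ l ∈ Finset.range (2 * k + 1),
          eLpNorm (fun z => ((ω ^ l) ^ (-m₀)) • Rf c k F (ω ^ l) z) P volume
            = eLpNorm (fB c k F) P volume := by
        intro l _
        have h2 := eLpNorm_const_smul ((ω ^ l) ^ (-m₀)) (⇑(Rf c k F (ω ^ l))) P (volume : Measure ℂ)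
        have h3 : ‖(ω ^ l) ^ (-m₀)‖ₑ = 1 := by
          rw [← ofReal_norm, norm_zpow, om_norm' hN0 hω, one_zpow, ENNReal.ofReal_one]
        rw [h3, one_mul, norm_Rf hF _ (om_norm' hN0 hω l)] at h2
        exact h2
      rw [Finset.sum_congr rfl e3, Finset.sum_const, Finset.card_range, nsmul_eq_mul]
  have h4 := eLpNorm_const_smul (((2 * k + 1 : ℕ) : ℂ)) (⇑(F m₀)) P (volume : Measure ℂ)
  have h5 : ‖((2 * k + 1 : ℕ) : ℂ)‖ₑ = ((2 * k + 1 : ℕ) : ℝ≥0∞) := by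
    rw [← ofReal_norm, Complex.norm_natCast, ENNReal.ofReal_natCast]
  have h6 : eLpNorm (fun z => ((2 * k + 1 : ℕ) : ℂ) • F m₀ z) P volume
      = ((2 * k + 1 : ℕ) : ℝ≥0∞) * eLpNorm (F m₀) P volume := by
    rw [← h5]
    exact h4
  rw [h6] at h1
  refine (ENNReal.mul_le_mul_iff_right ?_ (ENNReal.natCast_ne_top _)).1 h1
  exact_mod_cast hN0

/-- **the positive part of a band** -/
theorem pos_bound {p : ℝ} (hp : 1 ≤ p) {K : ℝ} (hK : 0 ≤ K)
    (hb : ∀ f : 𝓢(ℂ, ℂ), eLpNorm (T bs f) (ENNReal.ofReal p) volume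
      ≤ ENNReal.ofReal K * eLpNorm f (ENNReal.ofReal p) volume)
    (hF : ∀ m, An m (F m)) :
    eLpNorm (fun z => ∑ j ∈ Finset.Icc 1 k, T (fun ξ => bs ξ ^ j) (F (c + j)) z)
        (ENNReal.ofReal p) volume
      ≤ ENNReal.ofReal (Cn k * K * Lk k) * eLpNorm (fB c k F) (ENNReal.ofReal p) volume := by
  rcases Nat.eq_zero_or_pos k with hk | hk
  · subst hk
    simp
  have hP : (1 : ℝ≥0∞) ≤ ENNReal.ofReal p := by
    rw [← ENNReal.ofReal_one]
    exact ENNReal.ofReal_le_ofReal hp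
  set P := ENNReal.ofReal p with hPd
  have hN0 : (2 * k + 1) ≠ 0 := by omega
  have hω := Complex.isPrimitiveRoot_exp (2 * k + 1) hN0
  set ω := Complex.exp (2 * π * Complex.I / (2 * k + 1 : ℕ)) with hωd
  have hω0 : ∀ l : ℕ, ω ^ l ≠ 0 := fun l => pow_ne_zero l (hω.ne_zero hN0)
  have hadm : ∀ j : ℕ, Adm (fun ξ => bs ξ ^ j) := fun j => by
    simpa using adm_pow (j : ℤ)
  set S : ℂ → ℂ := fun z => ∑ j ∈ Finset.Icc 1 k, T (fun ξ => bs ξ ^ j) (F (c + j)) z with hS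
  set H : ℕ → ℂ → ℂ := fun l z => ∑ j ∈ Finset.Icc 1 k,
    (ω ^ l) ^ (-(c + j)) * T (fun ξ => bs ξ ^ j) (Rf c k F (ω ^ l)) z with hH
  have e : (fun z => ((2 * k + 1 : ℕ) : ℂ) • S z) = ∑ l ∈ Finset.range (2 * k + 1), H l := by
    funext z
    rw [Finset.sum_apply, hS, hH]
    simp only
    rw [Finset.sum_comm, smul_eq_mul, Finset.mul_sum]
    refine Finset.sum_congr rfl fun j hj => ?_
    rw [Finset.mem_Icc] at hj
    exact comp_avg (hadm j) hω (c + j) (by rw [Finset.mem_Icc]; omega) z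
  have hHb : ∀ l ∈ Finset.range (2 * k + 1), eLpNorm (H l) P volume
      ≤ ENNReal.ofReal (Cn k * K * Lk k) * eLpNorm (fB c k F) P volume := by
    intro l _
    have h1 := Pool.Agent.Q299.FC.comb_bound hp hK hb k hk
      (fun j => (ω ^ l) ^ (-(c + j))) (Rf c k F (ω ^ l))
    rw [norm_Rf hF _ (om_norm' hN0 hω l)] at h1
    have h2 : circleAverage (fun w => ‖∑ j ∈ Finset.Icc 1 k, (ω ^ l) ^ (-(c + (j : ℤ))) * w ^ j‖) 0 1
        = Lk k := by
      have h3 : (fun w : ℂ => ‖∑ j ∈ Finset.Icc 1 k, (ω ^ l) ^ (-(c + (j : ℤ))) * w ^ j‖)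
          = fun w => ‖∑ j ∈ Finset.Icc 1 k, ((ω ^ l)⁻¹ * w) ^ j‖ := by
        funext w
        have h4 : ∑ j ∈ Finset.Icc 1 k, (ω ^ l) ^ (-(c + (j : ℤ))) * w ^ j
            = (ω ^ l) ^ (-c) * ∑ j ∈ Finset.Icc 1 k, ((ω ^ l)⁻¹ * w) ^ j := by
          rw [Finset.mul_sum]
          refine Finset.sum_congr rfl fun j _ => ?_
          rw [neg_add, zpow_add₀ (hω0 l), mul_pow, inv_pow, zpow_neg (ω ^ l) (j : ℤ), zpow_natCast]
          ring
        rw [h4, norm_mul, norm_zpow, om_norm' hN0 hω, one_zpow, one_mul]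
      rw [h3]
      exact circ_rot ((ω ^ l)⁻¹) (by rw [norm_inv, om_norm' hN0 hω, inv_one])
        (fun w => ‖∑ j ∈ Finset.Icc 1 k, w ^ j‖)
    rw [h2] at h1
    exact h1
  have h1 : eLpNorm (fun z => ((2 * k + 1 : ℕ) : ℂ) • S z) P volume
      ≤ ((2 * k + 1 : ℕ) : ℝ≥0∞) *
        (ENNReal.ofReal (Cn k * K * Lk k) * eLpNorm (fB c k F) P volume) := by
    rw [e]
    refine (eLpNorm_sum_le (fun l _ => ?_) hP).trans ?_
    · refine Continuous.aestronglyMeasurable ?_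
      exact continuous_finsetSum _ fun j _ => continuous_const.mul (T_cont (hadm j) _)
    · refine (Finset.sum_le_sum hHb).trans (le_of_eq ?_)
      rw [Finset.sum_const, Finset.card_range, nsmul_eq_mul]
  have h4 := eLpNorm_const_smul (((2 * k + 1 : ℕ) : ℂ)) S P (volume : Measure ℂ)
  have h5 : ‖((2 * k + 1 : ℕ) : ℂ)‖ₑ = ((2 * k + 1 : ℕ) : ℝ≥0∞) := by
    rw [← ofReal_norm, Complex.norm_natCast, ENNReal.ofReal_natCast]
  have h6 : eLpNorm (fun z => ((2 * k + 1 : ℕ) : ℂ) • S z) P volume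
      = ((2 * k + 1 : ℕ) : ℝ≥0∞) * eLpNorm S P volume := by
    rw [← h5]
    exact h4
  rw [h6] at h1
  refine (ENNReal.mul_le_mul_iff_right ?_ (ENNReal.natCast_ne_top _)).1 h1
  exact_mod_cast hN0

end Q78.AF
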