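import Pool.Agent.Q78.AF.C
import Pool.Agent.TH55.PowE

/-! The main estimates. -/

set_option autoImplicit false
open MeasureTheory Filter Topology Real
open scoped FourierTransform SchwartzMap ENNReal ComplexConjugate

namespace Q78.AF

open Pool.Agent.TH55.PowA

lemma adm_nat (n : ℕ) : Adm (fun ξ => bs ξ ^ n) := by
  simpa using adm_pow (n : ℤ)

lemma split (c : ℤ) (k : ℕ) (g : ℤ → ℂ) : ∑ m ∈ Finset.Icc (c - k) (c + k), g m
    = g c + ∑ j ∈ Finset.Icc 1 k, g (c + j) + ∑ j ∈ Finset.Icc 1 k, g (c - j) := by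
  induction k with
  | zero => simp
  | succ k ih =>
    have h1 : Finset.Icc (c - ((k + 1 : ℕ) : ℤ)) (c + ((k + 1 : ℕ) : ℤ))
        = insert (c - ((k + 1 : ℕ) : ℤ)) (insert (c + ((k + 1 : ℕ) : ℤ))
          (Finset.Icc (c - (k : ℤ)) (c + (k : ℤ)))) := by
      ext m
      simp only [Finset.mem_insert, Finset.mem_Icc]
      push_cast
      omega
    rw [h1, Finset.sum_insert, Finset.sum_insert, ih, Finset.sum_Icc_succ_top (by omega),
      Finset.sum_Icc_succ_top (by omega)]
    · ring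
    · rw [Finset.mem_Icc]
      push_cast
      omega
    · rw [Finset.mem_insert, Finset.mem_Icc]
      push_cast
      omega

/-- the reflected family -/
noncomputable def Fr (F : ℤ → 𝓢(ℂ, ℂ)) (m : ℤ) : 𝓢(ℂ, ℂ) := cj (F (-m))

lemma Fr_An {F : ℤ → 𝓢(ℂ, ℂ)} (hF : ∀ m, An m (F m)) (m : ℤ) : An m (Fr F m) := by
  have := An_cj (hF (-m))
  rwa [neg_neg] at this

lemma fB_Fr (c : ℤ) (k : ℕ) (F : ℤ → 𝓢(ℂ, ℂ)) (z : ℂ) :
    fB (-c) k (Fr F) z = fB c k F (conj z) := by
  rw [fB_apply, fB_apply, split, split]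
  simp only [Fr, cj_apply, neg_neg]
  have e1 : ∀ j : ℕ, -(-c + (j : ℤ)) = c - j := fun j => by ring
  have e2 : ∀ j : ℕ, -(-c - (j : ℤ)) = c + j := fun j => by ring
  simp only [e1, e2]
  ring

lemma norm_fB_Fr (c : ℤ) (k : ℕ) (F : ℤ → 𝓢(ℂ, ℂ)) (P : ℝ≥0∞) :
    eLpNorm (fB (-c) k (Fr F)) P volume = eLpNorm (fB c k F) P volume := by
  rw [← norm_conj P (fB c k F)]
  congr 1
  funext z
  exact fB_Fr c k F z

/-- **one angular frequency**: `T ^ n` on the frequency `n` is an isometry of every `L ^ P` -/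
theorem center (n : ℕ) {f : 𝓢(ℂ, ℂ)} (hf : An n f) (P : ℝ≥0∞) :
    eLpNorm (T (fun ξ => bs ξ ^ n) f) P volume = eLpNorm f P volume := by
  rw [← norm_conj P f]
  congr 1
  funext z
  have h := T_refl (n : ℤ) (n : ℤ) hf z
  simp only [zpow_natCast, sub_self, zpow_zero] at h
  rw [h, T_one]

/-- frequencies above and below `n` -/
theorem single (p : ℝ) (hp : 2 ≤ p) (n k : ℕ) (hk : 1 ≤ k) (m : ℤ) (hm : m = n + k ∨ m = n - k)
    {f : 𝓢(ℂ, ℂ)} (hf : An m f) :
    eLpNorm (T (fun ξ => bs ξ ^ n) f) (ENNReal.ofReal p) volume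
      ≤ ENNReal.ofReal (Cn k * (p - 1)) * eLpNorm f (ENNReal.ofReal p) volume := by
  rcases hm with hm | hm
  · have e : T (fun ξ => bs ξ ^ n) f = fun z => T (fun ξ => bs ξ ^ k) f (conj z) := by
      funext z
      have h := T_refl (n : ℤ) m hf z
      rw [hm, add_sub_cancel_left] at h
      simpa using h
    rw [e, norm_conj _ (T (fun ξ => bs ξ ^ k) f)]
    exact main p hp k hk f
  · have e : T (fun ξ => bs ξ ^ n) f = T (fun ξ => bs ξ ^ k) (cj f) := by
      funext z
      have h := T_refl (n : ℤ) m hf z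
      have h2 : m - n = -(k : ℤ) := by rw [hm]; ring
      rw [h2, T_neg, Complex.conj_conj] at h
      simpa using h
    rw [e]
    refine (main p hp k hk (cj f)).trans (le_of_eq ?_)
    congr 1
    exact norm_conj _ f

/-- **bands of angular frequencies around `n`** -/
theorem band (p : ℝ) (hp : 2 ≤ p) (n k : ℕ) (F : ℤ → 𝓢(ℂ, ℂ)) (hF : ∀ m, An m (F m)) :
    eLpNorm (T (fun ξ => bs ξ ^ n) (fB n k F)) (ENNReal.ofReal p) volume
      ≤ ENNReal.ofReal (1 + 2 * (Cn k * Lk k) * (p - 1)) *
        eLpNorm (fB n k F) (ENNReal.ofReal p) volume := by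
  have hp1 : (1 : ℝ) ≤ p := by linarith
  have hp0 : (0 : ℝ) ≤ p - 1 := by linarith
  have hP : (1 : ℝ≥0∞) ≤ ENNReal.ofReal p := by
    rw [← ENNReal.ofReal_one]
    exact ENNReal.ofReal_le_ofReal hp1
  set P := ENNReal.ofReal p with hPd
  have hpos := pos_bound (c := (n : ℤ)) (k := k) hp1 hp0 (base p hp) hF
  have hneg := pos_bound (c := -(n : ℤ)) (k := k) hp1 hp0 (base p hp) (Fr_An hF)
  rw [norm_fB_Fr] at hneg
  have hcen := comp_bound (c := (n : ℤ)) (k := k) hF hP (n : ℤ) (by rw [Finset.mem_Icc]; omega)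
  set A : ℂ → ℂ := fun z => ∑ j ∈ Finset.Icc 1 k, T (fun ξ => bs ξ ^ j) (F (n + j)) z with hA
  set B : ℂ → ℂ := fun z => ∑ j ∈ Finset.Icc 1 k, T (fun ξ => bs ξ ^ j) (Fr F (-n + j)) z with hB
  have e : T (fun ξ => bs ξ ^ n) (fB n k F) = fun z => (F n (conj z) + A (conj z)) + B z := by
    funext z
    have h0 : T (fun ξ => bs ξ ^ n) (fB n k F) z
        = ∑ m ∈ Finset.Icc ((n : ℤ) - k) (n + k), T (fun ξ => bs ξ ^ n) (F m) z := by
      have := T_lin (Finset.Icc ((n : ℤ) - k) (n + k)) (fun _ => 1) F (adm_nat n) z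
      simp only [one_smul, one_mul] at this
      exact this
    have h1 : ∀ m : ℤ, T (fun ξ => bs ξ ^ n) (F m) z
        = T (fun ξ => bs ξ ^ (m - n)) (F m) (conj z) := by
      intro m
      have h := T_refl (n : ℤ) m (hF m) z
      simpa using h
    rw [h0, split]
    simp only [hA, hB]
    congr 1
    · congr 1
      · rw [h1, sub_self]
        simp only [zpow_zero]
        exact T_one _ _
      · refine Finset.sum_congr rfl fun j _ => ?_
        rw [h1, add_sub_cancel_left]
        simp only [zpow_natCast]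
    · refine Finset.sum_congr rfl fun j _ => ?_
      have h2 : (n : ℤ) - j - n = -(j : ℤ) := by ring
      rw [h1, h2, T_neg, Complex.conj_conj]
      simp only [zpow_natCast]
      unfold Fr
      have h3 : -(-(n : ℤ) + j) = n - j := by ring
      rw [h3]
  have hAc : Continuous A := continuous_finsetSum _ fun j _ => T_cont (adm_nat j) _
  have hBc : Continuous B := continuous_finsetSum _ fun j _ => T_cont (adm_nat j) _
  have hconj : Continuous fun z : ℂ => conj z := Complex.continuous_conj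
  have m1 : AEStronglyMeasurable (fun z => F n (conj z)) (volume : Measure ℂ) :=
    ((F n).continuous.comp hconj).aestronglyMeasurable
  have m2 : AEStronglyMeasurable (fun z => A (conj z)) (volume : Measure ℂ) :=
    (hAc.comp hconj).aestronglyMeasurable
  have m3 : AEStronglyMeasurable B (volume : Measure ℂ) := hBc.aestronglyMeasurable
  rw [e]
  have s1 := eLpNorm_add_le (m1.add m2) m3 hP
  have s2 := eLpNorm_add_le m1 m2 hP
  have hL0 : 0 ≤ Cn k * (p - 1) * Lk k ∨ k = 0 := by
    rcases Nat.eq_zero_or_pos k with h | h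
    · exact Or.inr h
    · left
      have h1 : 0 ≤ Cn k := by
        unfold Cn
        have hk1 : (1 : ℝ) ≤ k := by exact_mod_cast h
        have h2 : (0 : ℝ) ≤ ((k : ℝ) + 1) / ((k : ℝ) - 1) :=
          div_nonneg (by linarith) (by linarith)
        positivity
      exact mul_nonneg (mul_nonneg h1 hp0) (Lk_nonneg k)
  have hL0' : 0 ≤ Cn k * (p - 1) * Lk k := by
    rcases hL0 with h | h
    · exact h
    · rw [h]
      have : Lk 0 = 0 := by
        unfold Lk
        simp [circleAverage_def]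
      rw [this, mul_zero]
  calc eLpNorm (fun z => (F n (conj z) + A (conj z)) + B z) P volume
      ≤ (eLpNorm (fun z => F n (conj z)) P volume + eLpNorm (fun z => A (conj z)) P volume)
        + eLpNorm B P volume := s1.trans (by gcongr)
    _ ≤ (eLpNorm (fB n k F) P volume
          + ENNReal.ofReal (Cn k * (p - 1) * Lk k) * eLpNorm (fB n k F) P volume)
        + ENNReal.ofReal (Cn k * (p - 1) * Lk k) * eLpNorm (fB n k F) P volume := by
        rw [norm_conj P (F n), norm_conj P A]
        gcongr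
    _ = ENNReal.ofReal (1 + 2 * (Cn k * Lk k) * (p - 1)) * eLpNorm (fB n k F) P volume := by
        have h1 : 1 + 2 * (Cn k * Lk k) * (p - 1)
            = 1 + Cn k * (p - 1) * Lk k + Cn k * (p - 1) * Lk k := by ring
        rw [h1, ENNReal.ofReal_add (by linarith) hL0', ENNReal.ofReal_add (by norm_num) hL0',
          ENNReal.ofReal_one]
        ring

end Q78.AF
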