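import Pool.Agent.Q78.AF.D

/-! Constants, and the consequences for the two questions. -/

set_option autoImplicit false
open MeasureTheory Filter Topology Real
open scoped FourierTransform SchwartzMap ENNReal ComplexConjugate

namespace Q78.AF

open Pool.Agent.TH55.PowA

lemma Lk_le (k : ℕ) : Lk k ≤ Real.sqrt k := by
  have h := Pool.Agent.Q299.FC.mean_le_l2 (fun _ => 1) k
  have e : (fun w : ℂ => ‖Pool.Agent.Q299.FC.qa (fun _ => 1) k w‖)
      = fun w => ‖∑ j ∈ Finset.Icc 1 k, w ^ j‖ := by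
    funext w
    unfold Pool.Agent.Q299.FC.qa
    simp
  rw [e] at h
  refine h.trans (le_of_eq ?_)
  simp

/-- identity above `n` -/
lemma refl_up (n k : ℕ) {f : 𝓢(ℂ, ℂ)} (hf : An (n + k : ℤ) f) (z : ℂ) :
    T (fun ξ => bs ξ ^ n) f z = T (fun ξ => bs ξ ^ k) f (conj z) := by
  have h := T_refl (n : ℤ) (n + k : ℤ) hf z
  rw [add_sub_cancel_left] at h
  simpa using h

/-- identity below `n` -/
lemma refl_dn (n k : ℕ) {f g : 𝓢(ℂ, ℂ)} (hf : An (n - k : ℤ) f) (hg : ∀ x, g x = f (conj x))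
    (z : ℂ) : T (fun ξ => bs ξ ^ n) f z = T (fun ξ => bs ξ ^ k) g z := by
  have hgc : g = cj f := by
    ext x
    rw [cj_apply, hg]
  rw [hgc]
  have h := T_refl (n : ℤ) (n - k : ℤ) hf z
  have h2 : (n : ℤ) - k - n = -(k : ℤ) := by ring
  rw [h2, T_neg, Complex.conj_conj] at h
  simpa using h

lemma one_le_Cn (k : ℕ) (hk : 1 ≤ k) : 0 ≤ Cn k := by
  unfold Cn
  have hk1 : (1 : ℝ) ≤ k := by exact_mod_cast hk
  have h2 : (0 : ℝ) ≤ ((k : ℝ) + 1) / ((k : ℝ) - 1) :=
    div_nonneg (by linarith) (by linarith)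
  positivity

lemma Lk_zero : Lk 0 = 0 := by
  unfold Lk
  simp [circleAverage_def]

lemma CL_nonneg (k : ℕ) : 0 ≤ Cn k * Lk k := by
  rcases Nat.eq_zero_or_pos k with h | h
  · rw [h, Lk_zero, mul_zero]
  · exact mul_nonneg (one_le_Cn k h) (Lk_nonneg k)

/-- single frequencies: all bounds `B` with `p - 1 ≤ B` and `C_k (p - 1) ≤ B` -/
theorem single_le (p : ℝ) (hp : 2 ≤ p) (n : ℕ) (m : ℤ) {f : 𝓢(ℂ, ℂ)} (hf : An m f) (B : ℝ)
    (hB1 : p - 1 ≤ B) (hB : |m - n| ≤ 1 ∨ Cn (m - n).natAbs * (p - 1) ≤ B) :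
    eLpNorm (T (fun ξ => bs ξ ^ n) f) (ENNReal.ofReal p) volume
      ≤ ENNReal.ofReal B * eLpNorm f (ENNReal.ofReal p) volume := by
  rcases Nat.eq_zero_or_pos (m - n).natAbs with h0 | h0
  · have hm : m = n := by omega
    subst hm
    rw [center n hf]
    calc eLpNorm f (ENNReal.ofReal p) volume = 1 * eLpNorm f (ENNReal.ofReal p) volume := by
          rw [one_mul]
      _ ≤ ENNReal.ofReal B * eLpNorm f (ENNReal.ofReal p) volume := by
          gcongr
          rw [← ENNReal.ofReal_one]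
          exact ENNReal.ofReal_le_ofReal (by linarith)
  · have h1 := single p hp n (m - n).natAbs h0 m (by omega) hf
    refine h1.trans ?_
    gcongr
    rcases hB with h | h
    · have h2 : (m - n).natAbs = 1 := by
        rw [Int.abs_eq_natAbs] at h
        omega
      rw [h2, Cn_one, one_mul]
      exact hB1
    · exact h

/-- bands -/
theorem band_le (p : ℝ) (hp : 2 ≤ p) (n k : ℕ) (F : ℤ → 𝓢(ℂ, ℂ)) (hF : ∀ m, An m (F m)) (B : ℝ)
    (hB : (1 + 2 * (Cn k * Lk k)) * (p - 1) ≤ B) :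
    eLpNorm (T (fun ξ => bs ξ ^ n) (fB n k F)) (ENNReal.ofReal p) volume
      ≤ ENNReal.ofReal B * eLpNorm (fB n k F) (ENNReal.ofReal p) volume := by
  refine (band p hp n k F hF).trans ?_
  gcongr
  have := CL_nonneg k
  nlinarith

/-- the lower bound for the Pochhammer quotient -/
theorem poch (n : ℕ) (hn : 1 ≤ n) (p : ℝ) (hp : 2 ≤ p) :
    (p - 1) * ((2 * (n : ℝ) + 1) / 3) ^ (1 - 2 / p)
      ≤ (ascPochhammer ℝ n).eval (1 - 1 / p) / (ascPochhammer ℝ n).eval (1 / p) := by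
  have hp0 : (0 : ℝ) < p := by linarith
  set σ : ℝ := 1 / p with hσ
  have hσ0 : 0 < σ := by positivity
  have hσ1 : σ ≤ 1 / 2 := by
    rw [hσ]
    exact one_div_le_one_div_of_le (by norm_num) hp
  have e : 1 - 2 / p = 1 - 2 * σ := by rw [hσ]; ring
  rw [e]
  induction n, hn using Nat.le_induction with
  | base =>
    rw [ascPochhammer_one, Polynomial.eval_X, Polynomial.eval_X]
    have h1 : (2 * ((1 : ℕ) : ℝ) + 1) / 3 = 1 := by norm_num
    rw [h1, Real.one_rpow, mul_one, hσ]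
    apply le_of_eq
    field_simp
  | succ n hn ih =>
    rw [ascPochhammer_succ_eval, ascPochhammer_succ_eval, mul_div_mul_comm]
    have hn0 : (1 : ℝ) ≤ n := by exact_mod_cast hn
    have hd : 0 < σ + n := by linarith
    have h1 : ((2 * ((n + 1 : ℕ) : ℝ) + 1) / 3) ^ (1 - 2 * σ)
        = ((2 * (n : ℝ) + 1) / 3) ^ (1 - 2 * σ)
          * (1 + 2 / (2 * (n : ℝ) + 1)) ^ (1 - 2 * σ) := by
      rw [← Real.mul_rpow (by positivity) (by positivity)]
      congr 1
      push_cast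
      field_simp
      ring
    have h2 : (1 + 2 / (2 * (n : ℝ) + 1)) ^ (1 - 2 * σ)
        ≤ 1 + (1 - 2 * σ) * (2 / (2 * (n : ℝ) + 1)) := by
      refine rpow_one_add_le_one_add_mul_self ?_ (by linarith) (by linarith)
      have : 0 ≤ 2 / (2 * (n : ℝ) + 1) := by positivity
      linarith
    have h3 : 1 + (1 - 2 * σ) * (2 / (2 * (n : ℝ) + 1)) ≤ (1 - σ + n) / (σ + n) := by
      rw [le_div_iff₀ hd]
      have h4 : (1 + (1 - 2 * σ) * (2 / (2 * (n : ℝ) + 1))) * (σ + n)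
          = (1 - σ + n) - (1 - 2 * σ) * (1 - 2 * (σ + n) / (2 * n + 1)) := by
        field_simp
        ring
      rw [h4]
      have h5 : 2 * (σ + n) / (2 * (n : ℝ) + 1) ≤ 1 := by
        rw [div_le_one (by positivity)]
        linarith
      nlinarith
    rw [h1, ← mul_assoc]
    have h0 : 0 ≤ (ascPochhammer ℝ n).eval (1 - σ) / (ascPochhammer ℝ n).eval σ := by
      refine le_trans ?_ ih
      have : 0 ≤ p - 1 := by linarith
      positivity
    have h6 : 0 ≤ (1 + 2 / (2 * (n : ℝ) + 1)) ^ (1 - 2 * σ) := by positivity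
    exact mul_le_mul ih (h2.trans h3) h6 h0

end Q78.AF
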